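import Pool.Agent.Q202.QT.Lin

/-!
# Four places: the plane condition in terms of one discriminant, without conditions on the linking numbers of the fourth place
-/

set_option autoImplicit false

namespace Pool.Agent.V5helper95.QP

open Pool.Agent.Q202.QT (tern)

section
variable {F : Type} [Field F]

/-- the discriminant; `a = (λ₁₄, λ₂₄, λ₃₄)`, `b = (λ₄₁, λ₄₂, λ₄₃)` -/
def Dl (l12 l13 l21 l23 l31 l32 a1 a2 a3 b1 b2 b3 : F) : F :=
  tern ((l13 * a2 - l23 * a1) * (l31 * b2 - l32 * b1)) ((l12 * a3 - l32 * a1) * (l21 * b3 - l23 * b1))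
    ((l21 * a3 - l31 * a2) * (l12 * b3 - l13 * b2))

theorem map_Dl {K : Type} [Field K] (f : K →+* F) (l12 l13 l21 l23 l31 l32 x y z s0 s1 s2 : K) :
    f (Dl l12 l13 l21 l23 l31 l32 x y z s0 s1 s2) =
      Dl (f l12) (f l13) (f l21) (f l23) (f l31) (f l32) (f x) (f y) (f z) (f s0) (f s1) (f s2) := by
  simp only [Dl, tern, map_add, map_sub, map_mul, map_pow, map_ofNat]

theorem bin {P R T x y b D : F} (hb : b ≠ 0) (hD : ¬ IsSquare D) (hdisc : R ^ 2 - 4 * P * T = b ^ 2 * D)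
    (h : P * x ^ 2 + R * x * y + T * y ^ 2 = 0) : x = 0 ∧ y = 0 := by
  have hy : y = 0 := by
    by_contra hy
    apply hD
    have hby : b * y ≠ 0 := mul_ne_zero hb hy
    refine ⟨(2 * P * x + R * y) / (b * y), ?_⟩
    rw [div_mul_div_comm, eq_div_iff (mul_ne_zero hby hby)]
    linear_combination (-4 * P) * h - y ^ 2 * hdisc
  refine ⟨?_, hy⟩
  by_contra hx
  rw [hy] at h
  have hP : P = 0 := by
    have h1 : P * x ^ 2 = 0 := by linear_combination h
    exact (mul_eq_zero.1 h1).resolve_right (pow_ne_zero 2 hx)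
  apply hD
  refine ⟨R / b, ?_⟩
  rw [div_mul_div_comm, eq_div_iff (mul_ne_zero hb hb)]
  rw [hP] at hdisc
  linear_combination -hdisc

theorem conic (l12 l13 l21 l23 l31 l32 a1 a2 a3 b1 b2 b3 x y z : F)
    (hD : ¬ IsSquare (Dl l12 l13 l21 l23 l31 l32 a1 a2 a3 b1 b2 b3))
    (hQ : l21 * l31 * a1 * x ^ 2 + l12 * l32 * a2 * y ^ 2 + l13 * l23 * a3 * z ^ 2 +
      (l21 * l32 * a1 + l12 * l31 * a2) * (x * y) + (l23 * l31 * a1 + l13 * l21 * a3) * (x * z) +
      (l13 * l32 * a2 + l12 * l23 * a3) * (y * z) = 0)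
    (hL : b1 * x + b2 * y + b3 * z = 0) : x = 0 ∧ y = 0 ∧ z = 0 := by
  by_cases h3 : b3 = 0
  · by_cases h2 : b2 = 0
    · by_cases h1 : b1 = 0
      · exfalso
        apply hD
        refine ⟨0, ?_⟩
        rw [h1, h2, h3]
        unfold Dl tern
        ring
      · obtain ⟨hy, hz⟩ := bin (P := l12 * l32 * a2 * b1 ^ 2 - (l21 * l32 * a1 + l12 * l31 * a2) * b1 * b2 +
            l21 * l31 * a1 * b2 ^ 2)
          (R := (l13 * l32 * a2 + l12 * l23 * a3) * b1 ^ 2 - (l23 * l31 * a1 + l13 * l21 * a3) * b1 * b2 -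
            (l21 * l32 * a1 + l12 * l31 * a2) * b1 * b3 + 2 * (l21 * l31 * a1) * b2 * b3)
          (T := l13 * l23 * a3 * b1 ^ 2 - (l23 * l31 * a1 + l13 * l21 * a3) * b1 * b3 + l21 * l31 * a1 * b3 ^ 2)
          (x := y) (y := z) h1 hD (by unfold Dl tern; ring)
          (by
            linear_combination b1 ^ 2 * hQ - (l21 * l31 * a1 * (b1 * x - (b2 * y + b3 * z)) +
              b1 * ((l21 * l32 * a1 + l12 * l31 * a2) * y + (l23 * l31 * a1 + l13 * l21 * a3) * z)) * hL)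
        rw [hy, hz, mul_zero, mul_zero, add_zero, add_zero] at hL
        exact ⟨(mul_eq_zero.1 hL).resolve_left h1, hy, hz⟩
    · obtain ⟨hx, hz⟩ := bin (P := l21 * l31 * a1 * b2 ^ 2 - (l21 * l32 * a1 + l12 * l31 * a2) * b1 * b2 +
            l12 * l32 * a2 * b1 ^ 2)
          (R := (l23 * l31 * a1 + l13 * l21 * a3) * b2 ^ 2 - (l21 * l32 * a1 + l12 * l31 * a2) * b3 * b2 -
            (l13 * l32 * a2 + l12 * l23 * a3) * b1 * b2 + 2 * (l12 * l32 * a2) * b1 * b3)
          (T := l13 * l23 * a3 * b2 ^ 2 - (l13 * l32 * a2 + l12 * l23 * a3) * b2 * b3 + l12 * l32 * a2 * b3 ^ 2)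
          (x := x) (y := z) h2 hD (by unfold Dl tern; ring)
          (by
            linear_combination b2 ^ 2 * hQ - (l12 * l32 * a2 * (b2 * y - (b1 * x + b3 * z)) +
              b2 * ((l21 * l32 * a1 + l12 * l31 * a2) * x + (l13 * l32 * a2 + l12 * l23 * a3) * z)) * hL)
      rw [hx, hz, mul_zero, mul_zero, add_zero, zero_add] at hL
      exact ⟨hx, (mul_eq_zero.1 hL).resolve_left h2, hz⟩
  · obtain ⟨hx, hy⟩ := bin (P := l21 * l31 * a1 * b3 ^ 2 - (l23 * l31 * a1 + l13 * l21 * a3) * b1 * b3 +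
            l13 * l23 * a3 * b1 ^ 2)
          (R := (l21 * l32 * a1 + l12 * l31 * a2) * b3 ^ 2 - (l23 * l31 * a1 + l13 * l21 * a3) * b2 * b3 -
            (l13 * l32 * a2 + l12 * l23 * a3) * b1 * b3 + 2 * (l13 * l23 * a3) * b1 * b2)
          (T := l12 * l32 * a2 * b3 ^ 2 - (l13 * l32 * a2 + l12 * l23 * a3) * b2 * b3 + l13 * l23 * a3 * b2 ^ 2)
          (x := x) (y := y) h3 hD (by unfold Dl tern; ring)
          (by
            linear_combination b3 ^ 2 * hQ - (l13 * l23 * a3 * (b3 * z - (b1 * x + b2 * y)) +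
              b3 * ((l23 * l31 * a1 + l13 * l21 * a3) * x + (l13 * l32 * a2 + l12 * l23 * a3) * y)) * hL)
    rw [hx, hy, mul_zero, mul_zero, add_zero, zero_add] at hL
    exact ⟨hx, hy, (mul_eq_zero.1 hL).resolve_left h3⟩

theorem quad' (l12 l13 l14 l21 l23 l24 l31 l32 l34 l41 l42 l43 : F)
    (h3 : l12 * l23 * l31 - l13 * l21 * l32 ≠ 0)
    (hD : ¬ IsSquare (Dl l12 l13 l21 l23 l31 l32 l14 l24 l34 l41 l42 l43))
    (m12 m13 m14 m23 m24 m34 : F) (hP : m12 * m34 - m13 * m24 + m14 * m23 = 0)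
    (e1 : l12 * m12 + l13 * m13 + l14 * m14 = 0) (e2 : -l21 * m12 + l23 * m23 + l24 * m24 = 0)
    (e3 : -l31 * m13 - l32 * m23 + l34 * m34 = 0) (e4 : -l41 * m14 - l42 * m24 - l43 * m34 = 0) :
    m12 = 0 ∧ m13 = 0 ∧ m14 = 0 ∧ m23 = 0 ∧ m24 = 0 ∧ m34 = 0 := by
  have k12 : (l12 * l23 * l31 - l13 * l21 * l32) * m12 + l23 * l31 * l14 * m14 + l13 * l32 * l24 * m24 +
      l13 * l23 * l34 * m34 = 0 := by
    linear_combination (l23 * l31) * e1 + (l13 * l32) * e2 + (l13 * l23) * e3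
  have k13 : (l12 * l23 * l31 - l13 * l21 * l32) * m13 - l21 * l32 * l14 * m14 - l12 * l32 * l24 * m24 -
      l12 * l23 * l34 * m34 = 0 := by
    linear_combination (-(l21 * l32)) * e1 - (l12 * l32) * e2 - (l12 * l23) * e3
  have k23 : (l12 * l23 * l31 - l13 * l21 * l32) * m23 + l21 * l31 * l14 * m14 + l12 * l31 * l24 * m24 +
      l13 * l21 * l34 * m34 = 0 := by
    linear_combination (l21 * l31) * e1 + (l12 * l31) * e2 + (l13 * l21) * e3
  obtain ⟨h14, h24, h34⟩ := conic l12 l13 l21 l23 l31 l32 l14 l24 l34 l41 l42 l43 m14 m24 m34 hD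
    (by
      linear_combination (-(l12 * l23 * l31 - l13 * l21 * l32)) * hP + m34 * k12 - m24 * k13 + m14 * k23)
    (by linear_combination -e4)
  rw [h14, h24, h34] at k12 k13 k23
  refine ⟨?_, ?_, h14, ?_, h24, h34⟩
  · have : (l12 * l23 * l31 - l13 * l21 * l32) * m12 = 0 := by linear_combination k12
    exact (mul_eq_zero.1 this).resolve_left h3
  · have : (l12 * l23 * l31 - l13 * l21 * l32) * m13 = 0 := by linear_combination k13
    exact (mul_eq_zero.1 this).resolve_left h3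
  · have : (l12 * l23 * l31 - l13 * l21 * l32) * m23 = 0 := by linear_combination k23
    exact (mul_eq_zero.1 this).resolve_left h3

end

end Pool.Agent.V5helper95.QP
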