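import Pool.Agent.Q202.QT.Cnt
import Pool.Agent.V5helper95.QP.Pl

/-!
# Four places: the number of good vectors of linking numbers of the fourth place
-/

set_option autoImplicit false

namespace Pool.Agent.V5helper95.QP

open Finset
open Pool.Agent.Q202.QT (tern nonsq_tern card_ne)

section
variable {p : ℕ} [hpF : Fact p.Prime]

def mapA (l12 l13 l21 l23 l31 l32 : ZMod p) (w : Fin 3 → ZMod p) : Fin 3 → ZMod p :=
  ![l13 * w 1 - l23 * w 0, l12 * w 2 - l32 * w 0, l21 * w 2 - l31 * w 1]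

def mapB (l12 l13 l21 l23 l31 l32 : ZMod p) (s : Fin 3 → ZMod p) : Fin 3 → ZMod p :=
  ![l31 * s 1 - l32 * s 0, l21 * s 2 - l23 * s 0, l12 * s 2 - l13 * s 1]

theorem mapA_inj {l12 l13 l21 l23 l31 l32 : ZMod p} (h3 : l12 * l23 * l31 - l13 * l21 * l32 ≠ 0) :
    Function.Injective (mapA l12 l13 l21 l23 l31 l32) := by
  intro w v h
  have g0 : l13 * w 1 - l23 * w 0 = l13 * v 1 - l23 * v 0 := congrFun h 0
  have g1 : l12 * w 2 - l32 * w 0 = l12 * v 2 - l32 * v 0 := congrFun h 1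
  have g2 : l21 * w 2 - l31 * w 1 = l21 * v 2 - l31 * v 1 := congrFun h 2
  have k0 : (l12 * l23 * l31 - l13 * l21 * l32) * (w 0 - v 0) = 0 := by
    linear_combination (-(l12 * l31)) * g0 + (l13 * l21) * g1 - (l12 * l13) * g2
  have k1 : (l12 * l23 * l31 - l13 * l21 * l32) * (w 1 - v 1) = 0 := by
    linear_combination (-(l21 * l32)) * g0 + (l21 * l23) * g1 - (l12 * l23) * g2
  have k2 : (l12 * l23 * l31 - l13 * l21 * l32) * (w 2 - v 2) = 0 := by
    linear_combination (-(l31 * l32)) * g0 + (l23 * l31) * g1 - (l13 * l32) * g2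
  funext i
  fin_cases i
  · exact sub_eq_zero.1 ((mul_eq_zero.1 k0).resolve_left h3)
  · exact sub_eq_zero.1 ((mul_eq_zero.1 k1).resolve_left h3)
  · exact sub_eq_zero.1 ((mul_eq_zero.1 k2).resolve_left h3)

theorem mapB_inj {l12 l13 l21 l23 l31 l32 : ZMod p} (h3 : l12 * l23 * l31 - l13 * l21 * l32 ≠ 0) :
    Function.Injective (mapB l12 l13 l21 l23 l31 l32) := by
  intro w v h
  have g0 : l31 * w 1 - l32 * w 0 = l31 * v 1 - l32 * v 0 := congrFun h 0
  have g1 : l21 * w 2 - l23 * w 0 = l21 * v 2 - l23 * v 0 := congrFun h 1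
  have g2 : l12 * w 2 - l13 * w 1 = l12 * v 2 - l13 * v 1 := congrFun h 2
  have k0 : (l12 * l23 * l31 - l13 * l21 * l32) * (w 0 - v 0) = 0 := by
    linear_combination (l13 * l21) * g0 - (l12 * l31) * g1 + (l21 * l31) * g2
  have k1 : (l12 * l23 * l31 - l13 * l21 * l32) * (w 1 - v 1) = 0 := by
    linear_combination (l12 * l23) * g0 - (l12 * l32) * g1 + (l21 * l32) * g2
  have k2 : (l12 * l23 * l31 - l13 * l21 * l32) * (w 2 - v 2) = 0 := by
    linear_combination (l13 * l23) * g0 - (l13 * l32) * g1 + (l23 * l31) * g2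
  funext i
  fin_cases i
  · exact sub_eq_zero.1 ((mul_eq_zero.1 k0).resolve_left h3)
  · exact sub_eq_zero.1 ((mul_eq_zero.1 k1).resolve_left h3)
  · exact sub_eq_zero.1 ((mul_eq_zero.1 k2).resolve_left h3)

open Classical in
theorem count_s (hp2 : p ≠ 2) {l12 l13 l21 l23 l31 l32 : ZMod p} (h3 : l12 * l23 * l31 - l13 * l21 * l32 ≠ 0)
    (w : Fin 3 → ZMod p) (hw : ∀ i, mapA l12 l13 l21 l23 l31 l32 w i ≠ 0) :
    (p - 1) ^ 3 ≤ 2 * ((univ : Finset (Fin 3 → ZMod p)).filter fun s =>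
      ¬ IsSquare (Dl l12 l13 l21 l23 l31 l32 (w 0) (w 1) (w 2) (s 0) (s 1) (s 2))).card := by
  refine (nonsq_tern hp2).trans (Nat.mul_le_mul_left 2 (le_of_eq ?_))
  set φ : (Fin 3 → ZMod p) → (Fin 3 → ZMod p) := fun s i =>
    mapA l12 l13 l21 l23 l31 l32 w i * mapB l12 l13 l21 l23 l31 l32 s i with hφ
  have hinj : Function.Injective φ := by
    intro s t h
    apply mapB_inj h3
    funext i
    exact mul_left_cancel₀ (hw i) (congrFun h i)
  have hsurj : Function.Surjective φ := Finite.injective_iff_surjective.1 hinj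
  have key : ∀ s, Dl l12 l13 l21 l23 l31 l32 (w 0) (w 1) (w 2) (s 0) (s 1) (s 2) = tern (φ s 0) (φ s 1) (φ s 2) :=
    fun s => rfl
  symm
  refine card_bij (fun s _ => φ s) ?_ (fun s _ s' _ h => hinj h) ?_
  · intro s hs
    rw [mem_filter] at hs ⊢
    rw [key] at hs
    exact ⟨mem_univ _, hs.2⟩
  · intro t ht
    obtain ⟨s, rfl⟩ := hsurj t
    refine ⟨s, ?_, rfl⟩
    rw [mem_filter] at ht ⊢
    rw [key]
    exact ⟨mem_univ _, ht.2⟩

open Classical in
theorem count_ws (hp2 : p ≠ 2) {l12 l13 l21 l23 l31 l32 : ZMod p} (h3 : l12 * l23 * l31 - l13 * l21 * l32 ≠ 0) :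
    (p - 1) ^ 6 ≤ 2 * (∑ w : Fin 3 → ZMod p, ((univ : Finset (Fin 3 → ZMod p)).filter fun s =>
      ¬ IsSquare (Dl l12 l13 l21 l23 l31 l32 (w 0) (w 1) (w 2) (s 0) (s 1) (s 2))).card) := by
  set U : Finset (ZMod p) := univ.filter fun x => x ≠ 0 with hU
  set W : Finset (Fin 3 → ZMod p) := (univ : Finset (Fin 3 → ZMod p)).filter fun w =>
    ∀ i, mapA l12 l13 l21 l23 l31 l32 w i ≠ 0 with hW
  have hWc : W.card = (p - 1) ^ 3 := by
    have h1 : (Fintype.piFinset fun _ : Fin 3 => U).card = (p - 1) ^ 3 := by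
      rw [Fintype.card_piFinset, prod_const, hU, card_ne, card_univ, Fintype.card_fin]
    rw [← h1]
    have hsurj : Function.Surjective (mapA l12 l13 l21 l23 l31 l32) :=
      Finite.injective_iff_surjective.1 (mapA_inj h3)
    refine card_bij (fun w _ => mapA l12 l13 l21 l23 l31 l32 w) ?_ (fun s _ s' _ h => mapA_inj h3 h) ?_
    · intro w hw
      rw [Fintype.mem_piFinset]
      intro i
      exact mem_filter.2 ⟨mem_univ _, (mem_filter.1 hw).2 i⟩
    · intro t ht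
      obtain ⟨w, rfl⟩ := hsurj t
      refine ⟨w, mem_filter.2 ⟨mem_univ _, fun i => ?_⟩, rfl⟩
      exact (mem_filter.1 (Fintype.mem_piFinset.1 ht i)).2
  calc (p - 1) ^ 6 = ∑ w ∈ W, (p - 1) ^ 3 := by rw [sum_const, smul_eq_mul, hWc]; ring
    _ ≤ ∑ w ∈ W, 2 * ((univ : Finset (Fin 3 → ZMod p)).filter fun s =>
      ¬ IsSquare (Dl l12 l13 l21 l23 l31 l32 (w 0) (w 1) (w 2) (s 0) (s 1) (s 2))).card :=
        sum_le_sum fun w hw => count_s hp2 h3 w (mem_filter.1 hw).2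
    _ = 2 * ∑ w ∈ W, ((univ : Finset (Fin 3 → ZMod p)).filter fun s =>
      ¬ IsSquare (Dl l12 l13 l21 l23 l31 l32 (w 0) (w 1) (w 2) (s 0) (s 1) (s 2))).card := by rw [mul_sum]
    _ ≤ _ := Nat.mul_le_mul_left 2 (sum_le_sum_of_subset (filter_subset _ _))

end

end Pool.Agent.V5helper95.QP
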