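import Pool.Agent.Q202.QT.Np4
import Pool.Agent.V5helper95.QP.Ct

/-!
# The plane condition for two, three and four places (`p` or primes `≡ 1` modulo `p`)
-/

set_option autoImplicit false

open NumberField Matrix IsLocalRing

namespace Pool.Agent.V5helper95.QP

open Finset
open Pool.Agent.Results.MP_ca71b5_nt.RankTwoExtensions (NoPlane Tame linking)
open Pool.Agent.W569.TG (lk)
open Pool.Agent.Q202.RT Pool.Agent.Q202.QT

section
variable {p : ℕ} [hpF : Fact p.Prime]

open Classical in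
/-- the linking number of two places (`p` or primes `≡ 1` modulo `p`) -/
noncomputable def Lk (χ : ∀ j : ℕ, (ZMod j)ˣ →* Multiplicative (ZMod p)) (i j : ℕ) : ZMod p :=
  if j = p then lv p i else lk χ i j

/-- the plane condition -/
def NPl (F : Type) [Field F] [CharP F p] {n : ℕ} (L : Fin n → Fin n → ZMod p) : Prop :=
  ∀ X Y : Fin n → F, (∀ i, X i * ∑ j, ZMod.castHom (dvd_refl p) F (L i j) * Y j =
    Y i * ∑ j, ZMod.castHom (dvd_refl p) F (L i j) * X j) → ∃ c d : F, (c ≠ 0 ∨ d ≠ 0) ∧ ∀ i, c * X i = d * Y i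

theorem noplane_of {F : Type} [Field F] [CharP F p] (χ : ∀ j : ℕ, (ZMod j)ˣ →* Multiplicative (ZMod p)) {n : ℕ}
    (P : Fin n → ℕ) (hinj : Function.Injective P) (S : Finset ℕ) (hS : ∀ l ∈ S, l.Prime)
    (hSP : ∀ l ∈ S, l = p ∨ p ∣ l - 1 → l ∈ Set.range P)
    (h : NPl F fun i j => Lk χ (P i) (P j)) : NoPlane F p S χ := by
  classical
  have hp : p.Prime := hpF.out
  have hpT : p ∉ Tame p S := by
    intro hcon
    have h1 := (mem_filter.1 hcon).2
    have := Nat.le_of_dvd (by have := hp.two_le; omega) h1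
    have := hp.two_le
    omega
  have hlv : ∀ c : ℕ, (((c - 1) / p : ℕ) : F) = ZMod.castHom (dvd_refl p) F (lv p c) := by
    intro c
    unfold lv
    rw [map_natCast]
  intro x y a b h0 h1 h2
  set X' : ℕ → F := fun j => if j = p then a else if j ∈ Tame p S then x j else 0 with hX'
  set Y' : ℕ → F := fun j => if j = p then b else if j ∈ Tame p S then y j else 0 with hY'
  set f := ZMod.castHom (dvd_refl p) F with hf
  have hsum : ∀ (l : ℕ) (z : ℕ → F) (c : F), (p ∉ S → c = 0) →
      ∑ j : Fin n, f (Lk χ l (P j)) * (if P j = p then c else if P j ∈ Tame p S then z (P j) else 0) =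
        ∑ j ∈ Tame p S, linking F j l (χ j) * z j + (((l - 1) / p : ℕ) : F) * c := by
    intro l z c hc
    set g : ℕ → F := fun j => f (Lk χ l j) * (if j = p then c else if j ∈ Tame p S then z j else 0) with hg
    have e1 : ∑ j : Fin n, g (P j) = ∑ j ∈ univ.image P, g j := (sum_image fun i _ j _ hij => hinj hij).symm
    have e2 : ∑ j ∈ univ.image P, g j = ∑ j ∈ univ.image P ∪ insert p (Tame p S), g j := by
      refine sum_subset subset_union_left fun j hj hj' => ?_
      rcases mem_union.1 hj with h | h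
      · exact absurd h hj'
      rcases mem_insert.1 h with rfl | h
      · have hjS : j ∉ S := by
          intro hjS
          obtain ⟨i, hi⟩ := hSP j hjS (Or.inl rfl)
          exact hj' (mem_image.2 ⟨i, mem_univ i, hi⟩)
        show _ * (if j = j then c else _) = 0
        rw [if_pos rfl, hc hjS, mul_zero]
      · exfalso
        obtain ⟨i, hi⟩ := hSP j (mem_filter.1 h).1 (Or.inr (mem_filter.1 h).2)
        exact hj' (mem_image.2 ⟨i, mem_univ i, hi⟩)
    have e3 : ∑ j ∈ insert p (Tame p S), g j = ∑ j ∈ univ.image P ∪ insert p (Tame p S), g j := by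
      refine sum_subset subset_union_right fun j _ hj' => ?_
      rw [mem_insert, not_or] at hj'
      show _ * (if j = p then c else if j ∈ Tame p S then z j else 0) = 0
      rw [if_neg hj'.1, if_neg hj'.2, mul_zero]
    show ∑ j : Fin n, g (P j) = _
    rw [e1, e2, ← e3, sum_insert hpT, add_comm]
    congr 1
    · refine sum_congr rfl fun j hj => ?_
      have hjp : j ≠ p := fun h => hpT (h ▸ hj)
      show f (Lk χ l j) * (if j = p then c else if j ∈ Tame p S then z j else 0) = _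
      rw [if_neg hjp, if_pos hj, linking_lk, Lk, if_neg hjp]
    · show f (Lk χ l p) * (if p = p then c else _) = _
      rw [if_pos rfl, Lk, if_pos rfl, hlv]
  obtain ⟨c, d, hcd, hXY⟩ := h (fun i => X' (P i)) (fun i => Y' (P i)) (by
    intro i
    show X' (P i) * ∑ j : Fin n, f (Lk χ (P i) (P j)) * Y' (P j) = Y' (P i) * ∑ j : Fin n, f (Lk χ (P i) (P j)) * X' (P j)
    have s1 : ∑ j : Fin n, f (Lk χ (P i) (P j)) * Y' (P j) = _ := hsum (P i) y b fun h => (h0 h).2
    have s2 : ∑ j : Fin n, f (Lk χ (P i) (P j)) * X' (P j) = _ := hsum (P i) x a fun h => (h0 h).1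
    rw [s1, s2]
    by_cases hi : P i = p
    · have e1 : X' (P i) = a := if_pos hi
      have e2 : Y' (P i) = b := if_pos hi
      rw [e1, e2, hi]
      linear_combination h2
    · by_cases hiT : P i ∈ Tame p S
      · have e1 : X' (P i) = x (P i) := by
          show (if P i = p then a else if P i ∈ Tame p S then x (P i) else 0) = _
          rw [if_neg hi, if_pos hiT]
        have e2 : Y' (P i) = y (P i) := by
          show (if P i = p then b else if P i ∈ Tame p S then y (P i) else 0) = _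
          rw [if_neg hi, if_pos hiT]
        rw [e1, e2]
        exact h1 _ hiT
      · have e1 : X' (P i) = 0 := by
          show (if P i = p then a else if P i ∈ Tame p S then x (P i) else 0) = _
          rw [if_neg hi, if_neg hiT]
        have e2 : Y' (P i) = 0 := by
          show (if P i = p then b else if P i ∈ Tame p S then y (P i) else 0) = _
          rw [if_neg hi, if_neg hiT]
        rw [e1, e2, zero_mul, zero_mul])
  refine ⟨c, d, hcd, ?_, fun l hl => ?_⟩
  · by_cases hpS : p ∈ S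
    · obtain ⟨i, hi⟩ := hSP p hpS (Or.inl rfl)
      have e := hXY i
      have e1 : X' (P i) = a := if_pos hi
      have e2 : Y' (P i) = b := if_pos hi
      simp only [e1, e2] at e
      exact e
    · rw [(h0 hpS).1, (h0 hpS).2, mul_zero, mul_zero]
  · obtain ⟨i, hi⟩ := hSP l (mem_filter.1 hl).1 (Or.inr (mem_filter.1 hl).2)
    have hlp : l ≠ p := fun h => hpT (h ▸ hl)
    have e := hXY i
    have e1 : X' (P i) = x l := by
      show (if P i = p then a else if P i ∈ Tame p S then x (P i) else 0) = _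
      rw [hi, if_neg hlp, if_pos hl]
    have e2 : Y' (P i) = y l := by
      show (if P i = p then b else if P i ∈ Tame p S then y (P i) else 0) = _
      rw [hi, if_neg hlp, if_pos hl]
    simp only [e1, e2] at e
    exact e

/-- two vectors of length two whose minor vanishes are dependent -/
theorem dep2 {F : Type} [Field F] (x y : Fin 2 → F) (h01 : x 0 * y 1 = x 1 * y 0) :
    ∃ c d : F, (c ≠ 0 ∨ d ≠ 0) ∧ ∀ i, c * x i = d * y i := by
  by_cases hy : ∀ i, y i = 0
  · exact ⟨0, 1, Or.inr one_ne_zero, fun i => by rw [hy i, zero_mul, mul_zero]⟩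
  · push Not at hy
    obtain ⟨i, hi⟩ := hy
    refine ⟨y i, x i, Or.inl hi, fun j => ?_⟩
    fin_cases i <;> fin_cases j <;> simp only [Fin.zero_eta, Fin.mk_one] <;>
      first | ring1 | linear_combination h01 | linear_combination -h01

theorem npl_two {F : Type} [Field F] [CharP F p] (L : Fin 2 → Fin 2 → ZMod p) (hL : ∀ i, L i i = 0) (h : L 0 1 ≠ 0) :
    NPl F L := by
  intro X Y hXY
  have hinj : Function.Injective (ZMod.castHom (dvd_refl p) F) := (ZMod.castHom (dvd_refl p) F).injective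
  have e := hXY 0
  rw [Fin.sum_univ_two, Fin.sum_univ_two, hL 0, map_zero] at e
  have hn : ZMod.castHom (dvd_refl p) F (L 0 1) ≠ 0 := fun h' => h (hinj (by rw [h', map_zero]))
  refine dep2 X Y ?_
  have : ZMod.castHom (dvd_refl p) F (L 0 1) * (X 0 * Y 1 - X 1 * Y 0) = 0 := by linear_combination e
  exact sub_eq_zero.1 ((mul_eq_zero.1 this).resolve_left hn)

theorem npl_three {F : Type} [Field F] [CharP F p] (L : Fin 3 → Fin 3 → ZMod p) (hL : ∀ i, L i i = 0)
    (h : L 0 1 * L 1 2 * L 2 0 - L 0 2 * L 1 0 * L 2 1 ≠ 0) : NPl F L := by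
  intro X Y hXY
  have hinj : Function.Injective (ZMod.castHom (dvd_refl p) F) := (ZMod.castHom (dvd_refl p) F).injective
  set f := ZMod.castHom (dvd_refl p) F with hf
  have hD' : f (L 0 1) * f (L 1 2) * f (L 2 0) - f (L 0 2) * f (L 1 0) * f (L 2 1) ≠ 0 := by
    rw [← map_mul, ← map_mul, ← map_mul, ← map_mul, ← map_sub]
    intro h'
    exact h (hinj (by rw [map_zero]; exact h'))
  have e0 := hXY 0
  have e1 := hXY 1
  have e2 := hXY 2
  simp only [Fin.sum_univ_three, hL, map_zero, zero_mul, zero_add, add_zero] at e0 e1 e2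
  have g1 : f (L 0 1) * (X 0 * Y 1 - X 1 * Y 0) + f (L 0 2) * (X 0 * Y 2 - X 2 * Y 0) = 0 := by linear_combination e0
  have g2 : -f (L 1 0) * (X 0 * Y 1 - X 1 * Y 0) + f (L 1 2) * (X 1 * Y 2 - X 2 * Y 1) = 0 := by linear_combination e1
  have g3 : f (L 2 0) * (X 0 * Y 2 - X 2 * Y 0) + f (L 2 1) * (X 1 * Y 2 - X 2 * Y 1) = 0 := by linear_combination -e2
  refine dep3 X Y ?_ ?_ ?_
  · refine sub_eq_zero.1 ((mul_eq_zero.1 (?_ : (f (L 0 1) * f (L 1 2) * f (L 2 0) - f (L 0 2) * f (L 1 0) * f (L 2 1)) *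
        (X 0 * Y 1 - X 1 * Y 0) = 0)).resolve_left hD')
    linear_combination f (L 1 2) * f (L 2 0) * g1 + f (L 0 2) * f (L 2 1) * g2 - f (L 0 2) * f (L 1 2) * g3
  · refine sub_eq_zero.1 ((mul_eq_zero.1 (?_ : (f (L 0 1) * f (L 1 2) * f (L 2 0) - f (L 0 2) * f (L 1 0) * f (L 2 1)) *
        (X 0 * Y 2 - X 2 * Y 0) = 0)).resolve_left hD')
    linear_combination -f (L 1 0) * f (L 2 1) * g1 - f (L 0 1) * f (L 2 1) * g2 + f (L 0 1) * f (L 1 2) * g3
  · refine sub_eq_zero.1 ((mul_eq_zero.1 (?_ : (f (L 0 1) * f (L 1 2) * f (L 2 0) - f (L 0 2) * f (L 1 0) * f (L 2 1)) *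
        (X 1 * Y 2 - X 2 * Y 1) = 0)).resolve_left hD')
    linear_combination f (L 2 0) * f (L 1 0) * g1 + f (L 2 0) * f (L 0 1) * g2 - f (L 1 0) * f (L 0 2) * g3

theorem npl_four (hp2 : p ≠ 2) {F : Type} [Field F] [CharP F p] [Finite F] {d : ℕ} (hd : Odd d) (hc : Nat.card F = p ^ d)
    (L : Fin 4 → Fin 4 → ZMod p) (hL : ∀ i, L i i = 0) (h : L 0 1 * L 1 2 * L 2 0 - L 0 2 * L 1 0 * L 2 1 ≠ 0)
    (hG : ¬ IsSquare (Dl (L 0 1) (L 0 2) (L 1 0) (L 1 2) (L 2 0) (L 2 1) (L 0 3) (L 1 3) (L 2 3) (L 3 0) (L 3 1) (L 3 2))) :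
    NPl F L := by
  intro X Y hXY
  have hinj : Function.Injective (ZMod.castHom (dvd_refl p) F) := (ZMod.castHom (dvd_refl p) F).injective
  have hsq2 := nonsq_odd (F := F) hp2 hd hc _ hG
  rw [map_Dl] at hsq2
  have hD' : ZMod.castHom (dvd_refl p) F (L 0 1) * ZMod.castHom (dvd_refl p) F (L 1 2) * ZMod.castHom (dvd_refl p) F (L 2 0) -
      ZMod.castHom (dvd_refl p) F (L 0 2) * ZMod.castHom (dvd_refl p) F (L 1 0) * ZMod.castHom (dvd_refl p) F (L 2 1) ≠ 0 := by
    rw [← map_mul, ← map_mul, ← map_mul, ← map_mul, ← map_sub]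
    intro h'
    exact h (hinj (by rw [map_zero]; exact h'))
  simp only [Fin.sum_univ_four] at hXY
  have e0 := hXY 0
  have e1 := hXY 1
  have e2 := hXY 2
  have e3 := hXY 3
  simp only [hL, map_zero, zero_mul, zero_add, add_zero] at e0 e1 e2 e3
  obtain ⟨m12, m13, m14, m23, m24, m34⟩ := quad' _ _ _ _ _ _ _ _ _ _ _ _ hD' hsq2
    (X 0 * Y 1 - X 1 * Y 0) (X 0 * Y 2 - X 2 * Y 0) (X 0 * Y 3 - X 3 * Y 0) (X 1 * Y 2 - X 2 * Y 1)
    (X 1 * Y 3 - X 3 * Y 1) (X 2 * Y 3 - X 3 * Y 2) (by ring) (by linear_combination e0) (by linear_combination e1)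
    (by linear_combination e2) (by linear_combination e3)
  exact dep4 X Y (sub_eq_zero.1 m12) (sub_eq_zero.1 m13) (sub_eq_zero.1 m14) (sub_eq_zero.1 m23) (sub_eq_zero.1 m24)
    (sub_eq_zero.1 m34)

end

end Pool.Agent.V5helper95.QP
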