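import Pool.Agent.Q202.QT.DensN
import Pool.Agent.Q202.QT.Ker
import Pool.Agent.V5helper95.QP.Np

/-!
# Densities of the primes with good linking numbers with given places
-/

set_option autoImplicit false

namespace Pool.Agent.V5helper95.QP

open Finset Filter
open Pool.Agent.W569.TG (lk)
open Pool.Agent.Q202.RT Pool.Agent.Q202.QT

section
variable {p : ℕ} [hpF : Fact p.Prime]

open Classical in
/-- the number of good pairs of vectors -/
noncomputable def cnt {n : ℕ} (Good : (Fin n → ZMod p) → (Fin n → ZMod p) → Prop) : ℕ :=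
  ∑ w : Fin n → ZMod p, ((univ : Finset (Fin n → ZMod p)).filter fun s => Good w s).card

theorem cnt_eq {n : ℕ} (Good : (Fin n → ZMod p) → (Fin n → ZMod p) → Prop) [∀ w, DecidablePred (Good w)] :
    cnt Good = ∑ w : Fin n → ZMod p, ((univ : Finset (Fin n → ZMod p)).filter fun s => Good w s).card := by
  unfold cnt
  refine sum_congr rfl fun w _ => ?_
  congr!

theorem sum_succ {n : ℕ} (f : (Fin n → ZMod p) → ℕ) :
    ∑ w : Fin (n + 1) → ZMod p, f (fun i => w i.succ) = p * ∑ w : Fin n → ZMod p, f w := by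
  have h := Fintype.sum_equiv (Fin.consEquiv (fun _ : Fin (n + 1) => ZMod p)) (fun x => f x.2)
    (fun w => f fun i => w i.succ) (fun x => rfl)
  rw [← h, Fintype.sum_prod_type]
  simp only [sum_const, card_univ, ZMod.card, smul_eq_mul]

open Classical in
theorem card_succ {n : ℕ} (Q : (Fin n → ZMod p) → Prop) :
    ((univ : Finset (Fin (n + 1) → ZMod p)).filter fun s => Q fun i => s i.succ).card =
      p * ((univ : Finset (Fin n → ZMod p)).filter fun s => Q s).card := by
  rw [card_filter, card_filter]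
  exact sum_succ fun s => if Q s then 1 else 0

theorem cnt_succ {n : ℕ} (Good : (Fin n → ZMod p) → (Fin n → ZMod p) → Prop) :
    cnt (fun w s : Fin (n + 1) → ZMod p => Good (fun i => w i.succ) fun i => s i.succ) = p ^ 2 * cnt Good := by
  classical
  unfold cnt
  have h1 : ∀ w : Fin (n + 1) → ZMod p, ((univ : Finset (Fin (n + 1) → ZMod p)).filter fun s =>
      Good (fun i => w i.succ) fun i => s i.succ).card =
      (fun w' : Fin n → ZMod p => p * ((univ : Finset (Fin n → ZMod p)).filter fun s => Good w' s).card)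
        fun i => w i.succ := fun w => card_succ (Good fun i => w i.succ)
  calc _ = ∑ w : Fin (n + 1) → ZMod p, (fun w' : Fin n → ZMod p =>
        p * ((univ : Finset (Fin n → ZMod p)).filter fun s => Good w' s).card) fun i => w i.succ := by
        refine sum_congr rfl fun w _ => ?_
        rw [← h1 w]
    _ = p * ∑ w' : Fin n → ZMod p, p * ((univ : Finset (Fin n → ZMod p)).filter fun s => Good w' s).card :=
        sum_succ (fun w' : Fin n → ZMod p => p * ((univ : Finset (Fin n → ZMod p)).filter fun s => Good w' s).card)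
    _ = _ := by
        rw [← mul_sum]
        ring

theorem cons_ne {q : ℕ} (hq : q.Prime) (h : p ∣ q - 1) : q ≠ p := hnep hq h

open Classical in
theorem densG (hp2 : p ≠ 2) (χ : ∀ j : ℕ, (ZMod j)ˣ →* Multiplicative (ZMod p)) (hχ : Kr χ) {m : ℕ} (q₁ : ℕ)
    (hq₁ : q₁ = p ∨ q₁.Prime ∧ p ∣ q₁ - 1) (l : Fin m → ℕ)
    (hl : ∀ i, (l i).Prime) (hpl : ∀ i, p ∣ l i - 1) (hli : Function.Injective (Fin.cons q₁ l : Fin (m + 1) → ℕ))
    (Good : (Fin (m + 1) → ZMod p) → (Fin (m + 1) → ZMod p) → Prop) (hG0 : ∀ w s, Good w s → w ≠ 0)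
    (hGsc : ∀ w s (c : ZMod p), c ≠ 0 → Good w s → Good (fun j => c * w j) s) (δ : ℝ) (hδ : δ ≤ 1)
    (hcount : δ * (p : ℝ) ^ (2 * (m + 1)) ≤ (cnt Good : ℝ)) (ε : ℝ) (hε : 0 < ε) :
    ∀ᶠ x : ℕ in atTop, (δ - ε) * ((P1 p x).card : ℝ) ≤ (((P1 p x).filter fun q =>
      q ∉ Set.range (Fin.cons q₁ l : Fin (m + 1) → ℕ) ∧
      Good (fun i => lk χ ((Fin.cons q₁ l : Fin (m + 1) → ℕ) i) q)
        (fun i => Lk χ q ((Fin.cons q₁ l : Fin (m + 1) → ℕ) i))).card : ℝ) := by
  have hp : p.Prime := hpF.out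
  have hp0 : (0 : ℝ) < p := by exact_mod_cast hp.pos
  obtain ⟨hq, hl'⟩ := Fin.cons_injective_iff.1 hli
  have hLk : ∀ (q i : ℕ), i ≠ p → Lk χ q i = lk χ q i := fun q i hi => if_neg hi
  rcases hq₁ with rfl | ⟨hqp, hqd⟩
  · have hd := densN (p := q₁) hp2 χ hχ l hl hpl hl' Good hG0 hGsc δ hδ (by
      rw [le_div_iff₀ (by
        have : 0 < Fintype.card (Fin (m + 1) → ZMod q₁) := Fintype.card_pos
        positivity), Fintype.card_fun, ZMod.card, Fintype.card_fin]
      refine le_trans (le_of_eq ?_) hcount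
      push_cast
      ring) ε hε
    filter_upwards [hd] with x hx
    refine le_trans hx (Nat.cast_le.2 (card_le_card ?_))
    intro q hq'
    obtain ⟨h1, h2, h3⟩ := mem_filter.1 hq'
    refine mem_filter.2 ⟨h1, ?_, ?_⟩
    · rintro ⟨i, hi⟩
      revert hi
      refine Fin.cases ?_ (fun j => ?_) i
      · intro hi
        exact hnep (mem_P1.1 h1).2.1 (mem_P1.1 h1).2.2 hi.symm
      · intro hi
        exact h2 j hi.symm
    · have e1 : (fun i => lk χ ((Fin.cons q₁ l : Fin (m + 1) → ℕ) i) q) = vec χ (Fin.cons q₁ l) q := rfl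
      have e2 : (fun i => Lk χ q ((Fin.cons q₁ l : Fin (m + 1) → ℕ) i)) =
          (Fin.cons (lv q₁ q) fun i => lk χ q (l i) : Fin (m + 1) → ZMod q₁) := by
        funext i
        refine Fin.cases ?_ (fun j => ?_) i
        · exact if_pos rfl
        · exact hLk q (l j) (hnep (hl j) (hpl j))
      rw [e1, e2]
      exact h3
  · have hd := densN (p := p) hp2 χ hχ (Fin.cons q₁ l : Fin (m + 1) → ℕ) (by
        intro i
        refine Fin.cases ?_ (fun j => ?_) i
        · exact hqp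
        · exact hl j) (by
        intro i
        refine Fin.cases ?_ (fun j => ?_) i
        · exact hqd
        · exact hpl j) hli
      (fun w s => Good (fun i => w i.succ) fun i => s i.succ)
      (fun w s h h0 => hG0 _ _ h (by rw [h0]; rfl))
      (fun w s c hc h => hGsc _ _ c hc h) δ hδ (by
      rw [le_div_iff₀ (by
        have : 0 < Fintype.card (Fin (m + 1 + 1) → ZMod p) := Fintype.card_pos
        positivity), Fintype.card_fun, ZMod.card, Fintype.card_fin]
      have h1 := cnt_succ Good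
      unfold cnt at h1
      rw [h1]
      have h2 : (p : ℝ) ^ 2 * (δ * (p : ℝ) ^ (2 * (m + 1))) ≤ (p : ℝ) ^ 2 * (cnt Good : ℝ) :=
        mul_le_mul_of_nonneg_left hcount (by positivity)
      refine le_trans (le_of_eq ?_) (le_trans h2 (le_of_eq ?_))
      · push_cast
        ring
      · unfold cnt
        push_cast
        ring) ε hε
    filter_upwards [hd] with x hx
    refine le_trans hx (Nat.cast_le.2 (card_le_card ?_))
    intro q hq'
    obtain ⟨h1, h2, h3⟩ := mem_filter.1 hq'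
    refine mem_filter.2 ⟨h1, ?_, ?_⟩
    · rintro ⟨i, hi⟩
      exact h2 i hi.symm
    · have e2 : (fun i => Lk χ q ((Fin.cons q₁ l : Fin (m + 1) → ℕ) i)) =
          fun i => lk χ q ((Fin.cons q₁ l : Fin (m + 1) → ℕ) i) := by
        funext i
        refine Fin.cases ?_ (fun j => ?_) i
        · exact hLk q q₁ (hnep hqp hqd)
        · exact hLk q (l j) (hnep (hl j) (hpl j))
      rw [e2]
      exact h3

/-! ### Counts -/

open Classical in
theorem card_lin {n : ℕ} (y : Fin n → ZMod p) (hy : y ≠ 0) :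
    ((p : ℝ) - 1) * (p : ℝ) ^ n ≤ (p : ℝ) * (((univ : Finset (Fin n → ZMod p)).filter fun f => dot f y ≠ 0).card : ℝ) := by
  have h1 := card_orth y hy
  have h2 := card_filter_add_card_filter_not (s := (univ : Finset (Fin n → ZMod p))) (fun f => dot f y = 0)
  rw [card_univ, Fintype.card_fun, ZMod.card, Fintype.card_fin] at h2
  rw [Fintype.card_fin] at h1
  have h3 : (p : ℝ) * (((univ : Finset (Fin n → ZMod p)).filter fun f => dot f y = 0).card : ℝ) = (p : ℝ) ^ n := by
    exact_mod_cast h1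
  have h4 : (((univ : Finset (Fin n → ZMod p)).filter fun f => dot f y = 0).card : ℝ) +
      (((univ : Finset (Fin n → ZMod p)).filter fun f => ¬ dot f y = 0).card : ℝ) = (p : ℝ) ^ n := by
    exact_mod_cast h2
  have h5 : (((univ : Finset (Fin n → ZMod p)).filter fun f => dot f y ≠ 0).card : ℝ) =
      (p : ℝ) ^ n - (((univ : Finset (Fin n → ZMod p)).filter fun f => dot f y = 0).card : ℝ) := by
    linarith
  rw [h5]
  nlinarith

theorem dot_single {n : ℕ} (f : Fin n → ZMod p) (i : Fin n) (c : ZMod p) : dot f (Pi.single i c) = f i * c := by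
  unfold dot
  rw [sum_eq_single i]
  · rw [Pi.single_eq_same]
  · intro j _ hj
    rw [Pi.single_eq_of_ne hj, mul_zero]
  · intro h
    exact absurd (mem_univ i) h

theorem dot_add' {n : ℕ} (f y z : Fin n → ZMod p) : dot f (y + z) = dot f y + dot f z := by
  unfold dot
  rw [← sum_add_distrib]
  exact sum_congr rfl fun i _ => by rw [Pi.add_apply, mul_add]

/-- the second place -/
theorem cnt_one : (1 - 1 / (p : ℝ)) * (p : ℝ) ^ (2 * (0 + 1)) ≤
    (cnt (fun w _ : Fin (0 + 1) → ZMod p => w 0 ≠ 0) : ℝ) := by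
  classical
  have hp : p.Prime := hpF.out
  have hp0 : (0 : ℝ) < p := by exact_mod_cast hp.pos
  have h1 := card_lin (p := p) (n := 0 + 1) (Pi.single 0 1) (by
    intro h
    have := congrFun h 0
    rw [Pi.single_eq_same] at this
    exact one_ne_zero this)
  have h2 : (cnt (fun w _ : Fin (0 + 1) → ZMod p => w 0 ≠ 0) : ℝ) =
      (p : ℝ) * (((univ : Finset (Fin (0 + 1) → ZMod p)).filter fun f => dot f (Pi.single 0 1) ≠ 0).card : ℝ) := by
    rw [cnt_eq]
    beta_reduce
    have h3 : ∀ w : Fin (0 + 1) → ZMod p, ((univ : Finset (Fin (0 + 1) → ZMod p)).filter fun _ => w 0 ≠ 0).card =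
        p * (if dot w (Pi.single 0 1) ≠ 0 then 1 else 0) := by
      intro w
      rw [dot_single, mul_one]
      by_cases h : w 0 = 0
      · rw [if_neg (by simpa using h), mul_zero, card_eq_zero, filter_eq_empty_iff]
        exact fun _ _ => by simpa using h
      · rw [if_pos h, mul_one, filter_true_of_mem fun _ _ => h, card_univ, Fintype.card_fun, ZMod.card]
        simp
    rw [sum_congr rfl fun w _ => h3 w, ← mul_sum, ← card_filter]
    push_cast
    ring
  rw [h2]
  refine le_trans (le_of_eq ?_) h1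
  field_simp
  ring

/-- the third place -/
theorem cnt_two (a b : ZMod p) (ha : a ≠ 0) : (1 - 1 / (p : ℝ)) ^ 2 * (p : ℝ) ^ (2 * (1 + 1)) ≤
    (cnt (fun w s : Fin (1 + 1) → ZMod p => a * w 1 * s 0 - w 0 * b * s 1 ≠ 0) : ℝ) := by
  classical
  have hp : p.Prime := hpF.out
  have hp0 : (0 : ℝ) < p := by exact_mod_cast hp.pos
  have hp1 : (1 : ℝ) ≤ p := by exact_mod_cast hp.one_lt.le
  have h1 := card_lin (p := p) (n := 1 + 1) (Pi.single 1 1) (by
    intro h
    have := congrFun h 1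
    rw [Pi.single_eq_same] at this
    exact one_ne_zero this)
  set W := (univ : Finset (Fin (1 + 1) → ZMod p)).filter fun f => dot f (Pi.single 1 1) ≠ 0 with hW
  have h2 : ∀ w ∈ W, (1 - 1 / (p : ℝ)) * (p : ℝ) ^ 2 ≤
      (((univ : Finset (Fin (1 + 1) → ZMod p)).filter fun s => a * w 1 * s 0 - w 0 * b * s 1 ≠ 0).card : ℝ) := by
    intro w hw
    have hw1 : w 1 ≠ 0 := by
      have := (mem_filter.1 hw).2
      rwa [dot_single, mul_one] at this
    have h3 := card_lin (p := p) (n := 1 + 1) (Pi.single 0 (a * w 1) + Pi.single 1 (-(w 0 * b))) (by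
      intro h
      have h4 := congrFun h 0
      rw [Pi.add_apply, Pi.single_eq_same, Pi.single_eq_of_ne (by decide), add_zero] at h4
      exact mul_ne_zero ha hw1 h4)
    have h5 : ((univ : Finset (Fin (1 + 1) → ZMod p)).filter fun s =>
        dot s (Pi.single 0 (a * w 1) + Pi.single 1 (-(w 0 * b))) ≠ 0) =
        (univ : Finset (Fin (1 + 1) → ZMod p)).filter fun s => a * w 1 * s 0 - w 0 * b * s 1 ≠ 0 := by
      refine filter_congr fun s _ => ?_
      rw [dot_add', dot_single, dot_single]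
      have : s 0 * (a * w 1) + s 1 * -(w 0 * b) = a * w 1 * s 0 - w 0 * b * s 1 := by ring
      rw [this]
    rw [h5] at h3
    refine le_of_mul_le_mul_left (le_trans (le_of_eq ?_) h3) hp0
    field_simp
    try ring
  have h6 : (W.card : ℝ) * ((1 - 1 / (p : ℝ)) * (p : ℝ) ^ 2) ≤
      (cnt (fun w s : Fin (1 + 1) → ZMod p => a * w 1 * s 0 - w 0 * b * s 1 ≠ 0) : ℝ) := by
    unfold cnt
    push_cast
    calc (W.card : ℝ) * ((1 - 1 / (p : ℝ)) * (p : ℝ) ^ 2) = ∑ w ∈ W, ((1 - 1 / (p : ℝ)) * (p : ℝ) ^ 2) := by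
          rw [sum_const, nsmul_eq_mul]
      _ ≤ ∑ w ∈ W, (((univ : Finset (Fin (1 + 1) → ZMod p)).filter fun s => a * w 1 * s 0 - w 0 * b * s 1 ≠ 0).card : ℝ) :=
          sum_le_sum h2
      _ ≤ _ := sum_le_sum_of_subset_of_nonneg (filter_subset _ _) fun _ _ _ => Nat.cast_nonneg _
  refine le_trans ?_ h6
  have h7 : (1 - 1 / (p : ℝ)) * (p : ℝ) ^ 2 ≤ (W.card : ℝ) := by
    refine le_of_mul_le_mul_left (le_trans (le_of_eq ?_) h1) hp0
    field_simp
    try ring
  have h8 : 0 ≤ (1 - 1 / (p : ℝ)) * (p : ℝ) ^ 2 := by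
    have : 1 / (p : ℝ) ≤ 1 := by rw [div_le_one hp0]; exact hp1
    have : 0 ≤ 1 - 1 / (p : ℝ) := by linarith
    positivity
  calc (1 - 1 / (p : ℝ)) ^ 2 * (p : ℝ) ^ (2 * (1 + 1)) =
        ((1 - 1 / (p : ℝ)) * (p : ℝ) ^ 2) * ((1 - 1 / (p : ℝ)) * (p : ℝ) ^ 2) := by ring
    _ ≤ _ := mul_le_mul_of_nonneg_right h7 h8

/-- the fourth place -/
theorem cnt_three (hp2 : p ≠ 2) {l12 l13 l21 l23 l31 l32 : ZMod p} (h3 : l12 * l23 * l31 - l13 * l21 * l32 ≠ 0) :
    (1 - 1 / (p : ℝ)) ^ 6 / 2 * (p : ℝ) ^ (2 * (2 + 1)) ≤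
    (cnt (fun w s : Fin (2 + 1) → ZMod p =>
      ¬ IsSquare (Dl l12 l13 l21 l23 l31 l32 (w 0) (w 1) (w 2) (s 0) (s 1) (s 2))) : ℝ) := by
  classical
  have hp : p.Prime := hpF.out
  have hp0 : (0 : ℝ) < p := by exact_mod_cast hp.pos
  have h1 := count_ws hp2 h3
  have h2 : ((p : ℝ) - 1) ^ 6 ≤ 2 * (cnt (fun w s : Fin (2 + 1) → ZMod p =>
      ¬ IsSquare (Dl l12 l13 l21 l23 l31 l32 (w 0) (w 1) (w 2) (s 0) (s 1) (s 2))) : ℝ) := by
    have : (((p - 1 : ℕ)) : ℝ) = (p : ℝ) - 1 := by rw [Nat.cast_sub hp.one_le, Nat.cast_one]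
    rw [← this, cnt_eq]
    beta_reduce
    exact_mod_cast h1
  have h4 : (1 - 1 / (p : ℝ)) ^ 6 / 2 * (p : ℝ) ^ (2 * (2 + 1)) = ((p : ℝ) - 1) ^ 6 / 2 := by
    field_simp
    try ring
  rw [h4]
  linarith

end

end Pool.Agent.V5helper95.QP
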